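import Pool.Agent.W5h18.EP.Final

/-!
# Vojta's inequality at every point of the projective line, in almost all coordinates

The conjecture concerns the truncated counting function `N(x)` of a finite subset `α_1, …, α_q` of
the projective line. Here `x` is ANY point of the line over `ℚ`; there are no exceptional points.
Instead of `x` we consider the points `g x`, where `g` runs through the matrices in `SL₂(ℤ)` with
entries of absolute value at most `D` (there are at least `D² / 2` of them). For almost all `g`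
the inequality holds at `g x`, for all finite subsets of small height at once, provided that the
height `H(x)` of `x` is at most a certain power of `D`: the coefficient of `h(g x)` is nearly `q` if
`H(x) ≤ D ^ A` with `A < 5`, and nearly `q - 2`, as in the conjecture, if
`A ≤ (3 q + 2) / (q - 2)` (this is `11` for `q = 3` and `7` for `q = 4`). For an arbitrary fixed
exponent `A` the counting function is at least nearly `q · min (h(g x), 4 log D)`.

Since `N_α(g x)` is the counting function of the point `x` for the subset `g⁻¹ α`, this also says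
that for every point `x` the inequality holds for almost all of the images of `α` under `SL₂(ℤ)`.
-/

set_option autoImplicit false

namespace Pool.Agent.Results.MP_4d5ce1_nt.EveryPoint

open Filter Matrix

/-- The sum over the primes `p ∉ T` and over `l` of the truncated local heights
`λ⁽¹⁾_p(α_l, x)`: for coprime coordinates of `x` and `α_l` this is `log p` if
`p ∣ x₀ a₁ - x₁ a₀` and `0` otherwise. -/
noncomputable def N1 {q : ℕ} (α : Fin q → ℤ × ℤ) (T : Finset ℕ) (x : ℤ × ℤ) : ℝ :=
  ∑ i, ∑ p ∈ (x.1 * (α i).2 - x.2 * (α i).1).natAbs.primeFactors \ T, Real.log p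

/-- The absolute logarithmic height of the point with the coprime coordinates `x`. -/
noncomputable def hgt (x : ℤ × ℤ) : ℝ := Real.log (max x.1.natAbs x.2.natAbs : ℕ)

/-- The image of the point `x` under `g`; coprime coordinates go to coprime coordinates. -/
def act (g : SpecialLinearGroup (Fin 2) ℤ) (x : ℤ × ℤ) : ℤ × ℤ :=
  (g 0 0 * x.1 + g 0 1 * x.2, g 1 0 * x.1 + g 1 1 * x.2)

/-- The matrices in `SL₂(ℤ)` with entries of absolute value at most `D`. -/
def Ball (D : ℕ) : Set (SpecialLinearGroup (Fin 2) ℤ) := {g | ∀ i j, |g i j| ≤ (D : ℤ)}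

/-- Distinct points `α_1, …, α_q` of the line of height at most `η log D`, and a finite set `T` of
primes whose product is at most `D ^ η`. -/
def Small (η : ℝ) (D : ℕ) {q : ℕ} (α : Fin q → ℤ × ℤ) (T : Finset ℕ) : Prop :=
  (∀ i, IsCoprime (α i).1 (α i).2 ∧ hgt (α i) ≤ η * Real.log D) ∧
    (∀ i j, i ≠ j → (α i).1 * (α j).2 ≠ (α j).1 * (α i).2) ∧
    ∑ p ∈ T, Real.log (p : ℝ) ≤ η * Real.log D

/-- For all small `q`, `α_1, …, α_q`, `T`: the point `y` is different from the `α_l`, and
(a) `(1 - ε) q min (h(y), 4 log D) ≤ N(y)`, (b) if `A < 5`, then `(1 - ε) q h(y) ≤ N(y)`,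
(c) if `(q - 2) (A + 1) ≤ 4 q`, then `(1 - ε) (q - 2) h(y) ≤ N(y)`. -/
def Good (ε η A : ℝ) (D : ℕ) (y : ℤ × ℤ) : Prop :=
  ∀ (q : ℕ) (α : Fin q → ℤ × ℤ) (T : Finset ℕ), Small η D α T →
    (∀ i, y.1 * (α i).2 - y.2 * (α i).1 ≠ 0) ∧
      (1 - ε) * q * min (hgt y) (4 * Real.log D) ≤ N1 α T y ∧
      (A < 5 → (1 - ε) * q * hgt y ≤ N1 α T y) ∧
      (((q : ℝ) - 2) * (A + 1) ≤ 4 * q → (1 - ε) * ((q : ℝ) - 2) * hgt y ≤ N1 α T y)

/-- the rows of a matrix -/
def rows (g : SpecialLinearGroup (Fin 2) ℤ) : (ℤ × ℤ) × (ℤ × ℤ) :=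
  ((g 0 0, g 0 1), (g 1 0, g 1 1))

lemma rows_inj : Function.Injective rows := by
  intro g h hgh
  unfold rows at hgh
  simp only [Prod.mk.injEq] at hgh
  obtain ⟨⟨h1, h2⟩, h3, h4⟩ := hgh
  ext i j
  fin_cases i <;> fin_cases j
  · exact h1
  · exact h2
  · exact h3
  · exact h4

open Pool.Agent.W5h18.EP

lemma rows_mem {D : ℕ} {g : SpecialLinearGroup (Fin 2) ℤ} (h : g ∈ Ball D) : rows g ∈ Prs D := by
  rw [mem_Prs]
  unfold rows nm dt
  simp only
  have h00 := h 0 0
  have h01 := h 0 1
  have h10 := h 1 0
  have h11 := h 1 1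
  rw [Int.abs_eq_natAbs] at h00 h01 h10 h11
  refine ⟨?_, ?_, ?_⟩
  · omega
  · omega
  · have := g.det_coe
    rw [Matrix.det_fin_two] at this
    exact this

lemma rows_image (D : ℕ) : rows '' Ball D = (Prs D : Set ((ℤ × ℤ) × (ℤ × ℤ))) := by
  ext z
  constructor
  · rintro ⟨g, hg, rfl⟩
    exact Finset.mem_coe.2 (rows_mem hg)
  · intro hz
    obtain ⟨h1, h2, h3⟩ := mem_Prs.1 (Finset.mem_coe.1 hz)
    unfold dt at h3
    refine ⟨⟨!![z.1.1, z.1.2; z.2.1, z.2.2], by rw [Matrix.det_fin_two_of]; exact h3⟩, ?_, ?_⟩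
    · intro i j
      unfold nm at h1 h2
      have k : |z.1.1| ≤ (D : ℤ) ∧ |z.1.2| ≤ (D : ℤ) ∧ |z.2.1| ≤ (D : ℤ) ∧ |z.2.2| ≤ (D : ℤ) := by
        simp only [abs_le]
        omega
      fin_cases i <;> fin_cases j
      · exact k.1
      · exact k.2.1
      · exact k.2.2.1
      · exact k.2.2.2
    · unfold rows
      simp

lemma ball_finite (D : ℕ) : (Ball D).Finite := by
  refine Set.Finite.of_finite_image ?_ rows_inj.injOn
  rw [rows_image]
  exact Finset.finite_toSet _

lemma ball_ncard (D : ℕ) : (Ball D).ncard = (Prs D).card := by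
  rw [← Set.ncard_image_of_injective _ rows_inj, rows_image, Set.ncard_coe_finset]

lemma form_eq (g : SpecialLinearGroup (Fin 2) ℤ) (x α : ℤ × ℤ) :
    (act g x).1 * α.2 - (act g x).2 * α.1 = lf x.1 x.2 (rw' α (rows g)) := by
  rw [lf_rw']
  rfl

lemma sdiff_ge (n : ℕ) (T : Finset ℕ) :
    Real.log (rad n) - ∑ p ∈ T, Real.log (p : ℝ) ≤ ∑ p ∈ n.primeFactors \ T, Real.log (p : ℝ) := by
  rw [log_rad]
  have h1 : ∑ p ∈ n.primeFactors, Real.log (p : ℝ) ≤
      ∑ p ∈ n.primeFactors \ T, Real.log (p : ℝ) + ∑ p ∈ T, Real.log (p : ℝ) := by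
    rw [← Finset.sum_sdiff (Finset.inter_subset_left : n.primeFactors ∩ T ⊆ n.primeFactors)]
    have e : n.primeFactors \ (n.primeFactors ∩ T) = n.primeFactors \ T := by
      ext p; simp only [Finset.mem_sdiff, Finset.mem_inter]; tauto
    rw [e]
    have := Finset.sum_le_sum_of_subset_of_nonneg (f := fun p : ℕ => Real.log (p : ℝ))
      (Finset.inter_subset_right : n.primeFactors ∩ T ⊆ T) fun p _ _ => Real.log_natCast_nonneg p
    linarith
  linarith

/-- **Vojta's inequality at every point, in almost all coordinates.** Let `A ≥ 0` and `0 < ε ≤ 1`.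
There are `δ > 0` and `η > 0` such that for all large `D` and EVERY point `x` of the projective line
over `ℚ` of height `H(x) ≤ D ^ A`, all but a proportion of at most `D ^ (-δ)` of the matrices
`g ∈ SL₂(ℤ)` with entries of absolute value at most `D` (there are at least `D² / 2` of these) have
the following property. For all `q`, all distinct points `α_1, …, α_q` of height at most `η log D`
and all finite sets `T` of primes with product at most `D ^ η` the point `y = g x` is not one of the
`α_l` and `N(y) = ∑_{p ∉ T} ∑_l λ⁽¹⁾_p(α_l, y)` satisfies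
(a) `(1 - ε) q min (h(y), 4 log D) ≤ N(y)`;
(b) `(1 - ε) q h(y) ≤ N(y)`, if `A < 5`;
(c) `(1 - ε) (q - 2) h(y) ≤ N(y)`, if `(q - 2) (A + 1) ≤ 4 q`, for instance if `q = 3` and
`A ≤ 11`, or `q = 4` and `A ≤ 7`. -/
theorem result (A ε : ℝ) (hA : 0 ≤ A) (hε : 0 < ε) (hε1 : ε ≤ 1) :
    ∃ δ η : ℝ, 0 < δ ∧ 0 < η ∧ ∀ᶠ D : ℕ in atTop,
      (Ball D).Finite ∧ (D : ℝ) ^ 2 / 2 ≤ ((Ball D).ncard : ℝ) ∧
      ∀ x : ℤ × ℤ, IsCoprime x.1 x.2 → hgt x ≤ A * Real.log D →
        (({g : SpecialLinearGroup (Fin 2) ℤ | g ∈ Ball D ∧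
          ¬ Good ε η A D (act g x)}.ncard : ℕ) : ℝ) ≤ (D : ℝ) ^ (-δ) * (Ball D).ncard := by
  classical
  -- the small parameter
  obtain ⟨e, he0, he1, he2, he3⟩ : ∃ e : ℝ, 0 < e ∧ e ≤ 1 / 10 ∧ 80 * e ≤ ε ∧
      (A < 5 → A + 4 * e ≤ 5) := by
    by_cases hA5 : A < 5
    · refine ⟨min (1 / 80 * ε) ((5 - A) / 4), lt_min (by positivity) (by linarith), ?_, ?_, ?_⟩
      · exact (min_le_left _ _).trans (by linarith)
      · have := min_le_left (1 / 80 * ε) ((5 - A) / 4)
        linarith
      · intro _
        have := min_le_right (1 / 80 * ε) ((5 - A) / 4)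
        linarith
    · exact ⟨1 / 80 * ε, by positivity, by linarith, by linarith, fun h => absurd h hA5⟩
  refine ⟨e / 64, e / 128, by positivity, by positivity, ?_⟩
  filter_upwards [main A e hA he0 he1, eventually_ge_atTop 2, ev_const 2 e he0] with D hmain hD2 hDe
  have hx2 : (2 : ℝ) ≤ D := by exact_mod_cast hD2
  have hx0 : (0 : ℝ) < D := by linarith
  have hx1 : (1 : ℝ) ≤ D := by linarith
  have hL0 : 0 < Real.log D := Real.log_pos (by linarith)
  have hlog2 : Real.log 2 ≤ e * Real.log D := by
    have := Real.log_le_log (by norm_num) hDe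
    rwa [Real.log_rpow hx0] at this
  refine ⟨ball_finite D, by rw [ball_ncard]; exact card_Prs D, ?_⟩
  intro x hx hxA
  have hnx : 1 ≤ nm x := by
    refine nm_pos ?_
    rintro rfl
    exact not_isCoprime_zero_zero hx
  have hnx0 : (0 : ℝ) < nm x := by exact_mod_cast hnx
  have hhx : hgt x = Real.log (nm x) := rfl
  have hxA' : (nm x : ℝ) ≤ (D : ℝ) ^ A := by
    rw [hhx] at hxA
    have h1 := Real.exp_le_exp.2 hxA
    rw [Real.exp_log hnx0] at h1
    rw [Real.rpow_def_of_pos hx0]
    rwa [mul_comm] at h1
  obtain ⟨B, hB1, hB2⟩ := hmain x hx hxA'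
  rw [ball_ncard]
  refine le_trans ?_ hB1
  have hsub : rows '' {g : SpecialLinearGroup (Fin 2) ℤ | g ∈ Ball D ∧
      ¬ Good ε (e / 128) A D (act g x)} ⊆ (B : Set ((ℤ × ℤ) × (ℤ × ℤ))) := by
    rintro _ ⟨g, ⟨hgB, hgbad⟩, rfl⟩
    by_contra hnot
    apply hgbad
    have hz := rows_mem hgB
    have hgood := hB2 (rows g) hz hnot
    have hz' := mem_Prs.1 hz
    -- the height of `g x`
    obtain ⟨h, hh⟩ : ∃ h, h = hgt (act g x) := ⟨_, rfl⟩
    have hup : h ≤ Real.log 2 + Real.log (nm x) + Real.log D := by
      have h1 : nm (act g x) ≤ 2 * nm x * D := by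
        have e1 : act g x = (lf x.1 x.2 (rows g).1, lf x.1 x.2 (rows g).2) := by
          unfold act lf rows
          refine Prod.ext ?_ ?_ <;> simp only <;> ring
        rw [e1]
        have h2 := lf_le (a := x.1) (b := x.2) hz'.1
        have h3 := lf_le (a := x.1) (b := x.2) hz'.2.1
        exact max_le h2 h3
      have h4 : ((nm (act g x) : ℕ) : ℝ) ≤ 2 * nm x * D := by exact_mod_cast h1
      have h5 : hgt (act g x) = Real.log (nm (act g x)) := rfl
      rw [hh, h5]
      rcases Nat.eq_zero_or_pos (nm (act g x)) with h0 | h0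
      · rw [h0]
        simp only [Nat.cast_zero, Real.log_zero]
        have := Real.log_natCast_nonneg (nm x)
        have := Real.log_nonneg (by norm_num : (1 : ℝ) ≤ 2)
        positivity
      · have h6 : (0 : ℝ) < nm (act g x) := by exact_mod_cast h0
        have h7 := Real.log_le_log h6 h4
        rwa [Real.log_mul (by positivity) hx0.ne', Real.log_mul (by norm_num) hnx0.ne'] at h7
    have hlow : Real.log D / 2 ≤ h := by
      obtain ⟨f0, f1, -, -⟩ := hgood (0, 1) (by simp) (by
        have h1 : nm ((0 : ℤ), (1 : ℤ)) = 1 := by unfold nm; simp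
        rw [h1]
        push_cast
        exact Real.one_le_rpow hx1 (by positivity))
      have e1 := form_eq g x (0, 1)
      simp only [mul_one, mul_zero, sub_zero] at e1
      rw [← e1] at f0 f1
      have h2 : Real.log ((act g x).1.natAbs : ℝ) ≤ h := by
        rw [hh]
        unfold hgt
        apply Real.log_le_log
        · exact_mod_cast Int.natAbs_pos.2 f0
        · exact_mod_cast le_max_left _ _
      have h3 : 0 ≤ Real.log (nm x) := Real.log_natCast_nonneg _
      have h4 : 2 * e * Real.log D ≤ 1 / 2 * Real.log D :=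
        mul_le_mul_of_nonneg_right (by linarith) hL0.le
      linarith
    intro q α T hsm
    obtain ⟨hα1, hα2, hT⟩ := hsm
    have hform : ∀ i, Int.gcd (α i).1 (α i).2 = 1 ∧ (nm (α i) : ℝ) ≤ (D : ℝ) ^ (e / 128) := by
      intro i
      refine ⟨Int.isCoprime_iff_gcd_eq_one.1 (hα1 i).1, ?_⟩
      have h1 : 1 ≤ nm (α i) := by
        refine nm_pos ?_
        intro h0
        have := (hα1 i).1
        rw [h0] at this
        exact not_isCoprime_zero_zero this
      have h2 : (0 : ℝ) < nm (α i) := by exact_mod_cast h1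
      have h3 : Real.log (nm (α i)) ≤ e / 128 * Real.log D := (hα1 i).2
      have h4 := Real.exp_le_exp.2 h3
      rw [Real.exp_log h2] at h4
      rw [Real.rpow_def_of_pos hx0]
      rwa [mul_comm] at h4
    have hTe : ∑ p ∈ T, Real.log (p : ℝ) ≤ e * Real.log D := by
      refine hT.trans (mul_le_mul_of_nonneg_right (by linarith) hL0.le)
    have heL : 0 ≤ e * Real.log D := by positivity
    -- the three estimates for one point
    have hone : ∀ i, (act g x).1 * (α i).2 - (act g x).2 * (α i).1 ≠ 0 ∧
        min h (4 * Real.log D) - 20 * (e * Real.log D) ≤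
          ∑ p ∈ ((act g x).1 * (α i).2 - (act g x).2 * (α i).1).natAbs.primeFactors \ T,
            Real.log (p : ℝ) ∧
        (A < 5 → h - 20 * (e * Real.log D) ≤
          ∑ p ∈ ((act g x).1 * (α i).2 - (act g x).2 * (α i).1).natAbs.primeFactors \ T,
            Real.log (p : ℝ)) := by
      intro i
      obtain ⟨f0, f1, f2, f3⟩ := hgood (α i) (hform i).1 (hform i).2
      rw [form_eq]
      have h5 := sdiff_ge (lf x.1 x.2 (rw' (α i) (rows g))).natAbs T
      have h6 : h - 3 * (e * Real.log D) ≤
          Real.log ((lf x.1 x.2 (rw' (α i) (rows g))).natAbs : ℝ) := by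
        have h7 : (1 - 2 * e) * Real.log D = Real.log D - 2 * (e * Real.log D) := by ring
        rw [h7] at f1
        linarith
      refine ⟨f0, ?_, ?_⟩
      · have h8 : min h (4 * Real.log D) - 3 * (e * Real.log D) ≤
            min (Real.log ((lf x.1 x.2 (rw' (α i) (rows g))).natAbs : ℝ)) (4 * Real.log D) := by
          apply le_min
          · have := min_le_left h (4 * Real.log D)
            linarith
          · have := min_le_right h (4 * Real.log D)
            linarith
        have h9 : 16 * e * Real.log D = 16 * (e * Real.log D) := by ring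
        rw [h9] at f2
        linarith
      · intro hA5
        have h10 := f3 (he3 hA5)
        have h9 : 16 * e * Real.log D = 16 * (e * Real.log D) := by ring
        rw [h9] at h10
        linarith
    have hq0 : (0 : ℝ) ≤ q := Nat.cast_nonneg q
    -- summation
    have hsum : ∀ c : ℝ, (∀ i : Fin q, c ≤
        ∑ p ∈ ((act g x).1 * (α i).2 - (act g x).2 * (α i).1).natAbs.primeFactors \ T,
          Real.log (p : ℝ)) → q * c ≤ N1 α T (act g x) := by
      intro c hc
      unfold N1
      calc (q : ℝ) * c = ∑ _i : Fin q, c := by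
            rw [Finset.sum_const, Finset.card_univ, Fintype.card_fin, nsmul_eq_mul]
        _ ≤ _ := Finset.sum_le_sum fun i _ => hc i
    have hmin : Real.log D / 2 ≤ min h (4 * Real.log D) := le_min hlow (by linarith)
    have h40 : 20 * (e * Real.log D) ≤ ε / 2 * min h (4 * Real.log D) := by
      have h1 : ε / 2 * (Real.log D / 2) ≤ ε / 2 * min h (4 * Real.log D) :=
        mul_le_mul_of_nonneg_left hmin (by positivity)
      have h2 : 80 * e * Real.log D ≤ ε * Real.log D := mul_le_mul_of_nonneg_right he2 hL0.le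
      linarith
    have hmain1 : (1 - ε / 2) * q * min h (4 * Real.log D) ≤ N1 α T (act g x) := by
      have h1 := hsum ((1 - ε / 2) * min h (4 * Real.log D)) (fun i => by
        have := (hone i).2.1
        linarith)
      linarith
    have hh0 : 0 ≤ h := by linarith
    have hmn0 : 0 ≤ min h (4 * Real.log D) := by linarith
    refine ⟨fun i => (hone i).1, ?_, ?_, ?_⟩
    · rw [← hh]
      refine le_trans ?_ hmain1
      refine mul_le_mul_of_nonneg_right (mul_le_mul_of_nonneg_right (by linarith) hq0) hmn0
    · intro hA5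
      rw [← hh]
      have h1 := hsum ((1 - ε) * h) (fun i => by
        have h2 := (hone i).2.2 hA5
        have h3 := min_le_left h (4 * Real.log D)
        have h4 : ε / 2 * min h (4 * Real.log D) ≤ ε / 2 * h :=
          mul_le_mul_of_nonneg_left h3 (by positivity)
        have h5 : 0 ≤ ε * h := by positivity
        linarith)
      linarith
    · intro hqA
      rw [← hh]
      rcases lt_or_ge q 3 with hq | hq
      · -- at most two points
        have h1 : (1 - ε) * ((q : ℝ) - 2) * h ≤ 0 := by
          have : (q : ℝ) ≤ 2 := by exact_mod_cast (by omega : q ≤ 2)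
          have h2 : (1 - ε) * ((q : ℝ) - 2) ≤ 0 :=
            mul_nonpos_of_nonneg_of_nonpos (by linarith) (by linarith)
          exact mul_nonpos_of_nonpos_of_nonneg h2 hh0
        have h3 : 0 ≤ (1 - ε / 2) * q * min h (4 * Real.log D) :=
          mul_nonneg (mul_nonneg (by linarith) hq0) hmn0
        linarith
      · have hq3 : (3 : ℝ) ≤ q := by exact_mod_cast hq
        refine le_trans ?_ hmain1
        rcases le_total h (4 * Real.log D) with hc | hc
        · rw [min_eq_left hc]
          refine mul_le_mul_of_nonneg_right ?_ hh0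
          refine mul_le_mul (by linarith) (by linarith) (by linarith) (by linarith)
        · rw [min_eq_right hc]
          have h1 : h ≤ (A + 1) * Real.log D + Real.log 2 := by
            rw [hhx] at hxA
            linarith
          have h2 : (1 - ε) * ((q : ℝ) - 2) * h ≤
              (1 - ε) * ((q : ℝ) - 2) * ((A + 1) * Real.log D + Real.log 2) :=
            mul_le_mul_of_nonneg_left h1 (mul_nonneg (by linarith) (by linarith))
          have h3 : (1 - ε) * (((q : ℝ) - 2) * (A + 1) * Real.log D) ≤
              (1 - ε) * (4 * q * Real.log D) :=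
            mul_le_mul_of_nonneg_left (mul_le_mul_of_nonneg_right hqA hL0.le) (by linarith)
          have h4 : (1 - ε) * (((q : ℝ) - 2) * Real.log 2) ≤ q * (e * Real.log D) := by
            have h5 : ((q : ℝ) - 2) * Real.log 2 ≤ q * (e * Real.log D) :=
              mul_le_mul (by linarith) hlog2 (Real.log_nonneg (by norm_num)) hq0
            have h6 : 0 ≤ ((q : ℝ) - 2) * Real.log 2 :=
              mul_nonneg (by linarith) (Real.log_nonneg (by norm_num))
            nlinarith
          have h7 : q * (e * Real.log D) ≤ ε * (2 * q * Real.log D) := by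
            have h8 : e ≤ 2 * ε := by linarith
            have h9 : 0 ≤ q * Real.log D := by positivity
            nlinarith
          calc (1 - ε) * ((q : ℝ) - 2) * h ≤
              (1 - ε) * ((q : ℝ) - 2) * ((A + 1) * Real.log D + Real.log 2) := h2
            _ = (1 - ε) * (((q : ℝ) - 2) * (A + 1) * Real.log D) +
                (1 - ε) * (((q : ℝ) - 2) * Real.log 2) := by ring
            _ ≤ (1 - ε) * (4 * q * Real.log D) + ε * (2 * q * Real.log D) := by linarith
            _ = (1 - ε / 2) * q * (4 * Real.log D) := by ring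
  have hfin : {g : SpecialLinearGroup (Fin 2) ℤ | g ∈ Ball D ∧
      ¬ Good ε (e / 128) A D (act g x)}.ncard ≤ B.card := by
    rw [← Set.ncard_image_of_injective _ rows_inj, ← Set.ncard_coe_finset]
    exact Set.ncard_le_ncard hsub (Finset.finite_toSet _)
  exact_mod_cast hfin

end Pool.Agent.Results.MP_4d5ce1_nt.EveryPoint
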