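import Pool.Agent.W5h35.LW.Tail
import Pool.Agent.W5h35.LW.Law
import Pool.Agent.Results.MP_4d5ce1_nt.AlmostAllPoints

/-!
# The abc conjecture for finite subsets of the projective line over `ℚ`: the asymptotic formula and
the limit law for the points of all heights, ordered by their truncated counting function
-/

set_option autoImplicit false

namespace Pool.Agent.Results.MP_4d5ce1_nt.LimitLaw

open Filter Topology MeasureTheory

/-- Normalised coprime integer coordinates: each point `[x₀ : x₁]` of the projective line over `ℚ`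
has exactly one such pair. -/
def Nrm (x : ℤ × ℤ) : Prop := IsCoprime x.1 x.2 ∧ (0 < x.2 ∨ x.2 = 0 ∧ 0 < x.1)

/-- The value at `x` of the linear form vanishing at `α_i`. -/
def L {q : ℕ} (α : Fin q → ℤ × ℤ) (i : Fin q) (x : ℤ × ℤ) : ℤ := x.1 * (α i).2 - x.2 * (α i).1

/-- The sum over the primes `p ∉ S` and over `ℓ` of the truncated local heights
`λ⁽¹⁾_p(α_ℓ, x)`: for coprime coordinates of `x` and `α_ℓ` this is `log p` if
`p ∣ x₀ a₁ - x₁ a₀` and `0` otherwise. -/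
noncomputable def N1 {q : ℕ} (α : Fin q → ℤ × ℤ) (S : Finset ℕ) (x : ℤ × ℤ) : ℝ :=
  ∑ i, ∑ p ∈ (L α i x).natAbs.primeFactors \ S, Real.log p

/-- The absolute logarithmic height of the point with the coprime coordinates `x`. -/
noncomputable def hgt (x : ℤ × ℤ) : ℝ := Real.log (max x.1.natAbs x.2.natAbs : ℕ)

/-- The points `x`, different from all the `α_ℓ`, with
`∑_{p ∉ S} ∑_ℓ λ⁽¹⁾_p(α_ℓ, x) ≤ log X`; there is no condition on the height of `x`. -/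
def Pts {q : ℕ} (α : Fin q → ℤ × ℤ) (S : Finset ℕ) (X : ℝ) : Set (ℤ × ℤ) :=
  {x | Nrm x ∧ (∀ i, L α i x ≠ 0) ∧ N1 α S x ≤ Real.log X}

/-- The repeated part: the product over `i` of the quotients of `|L_i(x)|` by the product of the
primes `p ∉ S` that divide it. So `∏_i |L_i(x)| = rep(x) exp(N1(x))`. -/
def rep {q : ℕ} (α : Fin q → ℤ × ℤ) (S : Finset ℕ) (x : ℤ × ℤ) : ℕ :=
  ∏ i, (L α i x).natAbs / ∏ p ∈ (L α i x).natAbs.primeFactors \ S, p

/-- The form `F(y) = ∏_i |L_i(y)|` at a real point `y`. -/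
noncomputable def F {q : ℕ} (α : Fin q → ℤ × ℤ) (y : ℝ × ℝ) : ℝ :=
  ∏ i, |y.1 * (α i).2 - y.2 * (α i).1|

/-- The set `A` of pairs of integers has the natural density `d`. -/
def HasDens (A : Set (ℤ × ℤ)) (d : ℝ) : Prop :=
  Tendsto (fun N : ℕ => ((A ∩ {x | |x.1| ≤ N ∧ |x.2| ≤ N}).ncard : ℝ) / (2 * (N : ℝ) + 1) ^ 2)
    atTop (𝓝 d)

/-- A set of directions, that is a subset of the real projective line: a measurable set of real
pairs, invariant under nonzero homotheties, whose boundary has measure zero. -/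
def Dirs (Γ : Set (ℝ × ℝ)) : Prop :=
  MeasurableSet Γ ∧ volume (frontier Γ) = 0 ∧
    ∀ (c : ℝ) (y : ℝ × ℝ), c ≠ 0 → ((c * y.1, c * y.2) ∈ Γ ↔ y ∈ Γ)

/-- The area of the part in `Γ` of the region `F ≤ 1`. -/
noncomputable def area {q : ℕ} (α : Fin q → ℤ × ℤ) (Γ : Set (ℝ × ℝ)) : ℝ :=
  (volume {y | y ∈ Γ ∧ F α y ≤ 1}).toReal

/-- The area of the part in `Γ` of the region `F ≤ 1`, `w max(|y₀|, |y₁|) ^ q ≤ exp(t) F`. -/
noncomputable def areaT {q : ℕ} (α : Fin q → ℤ × ℤ) (Γ : Set (ℝ × ℝ)) (w : ℕ) (t : ℝ) : ℝ :=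
  (volume {y | y ∈ Γ ∧ F α y ≤ 1 ∧ (w : ℝ) * max |y.1| |y.2| ^ q ≤ Real.exp t * F α y}).toReal

/-- The prime `p` is not in `S` and the `α_i` are distinct modulo `p`. -/
def Good {q : ℕ} (α : Fin q → ℤ × ℤ) (S : Finset ℕ) (p : ℕ) : Prop :=
  p.Prime ∧ p ∉ S ∧ ∀ i j, i ≠ j → ¬ (p : ℤ) ∣ (α i).1 * (α j).2 - (α j).1 * (α i).2

theorem bnd (q : ℕ) (hq : 3 ≤ q) (α : Fin q → ℤ × ℤ)
    (hcop : ∀ i, IsCoprime (α i).1 (α i).2)
    (hα : ∀ i j, i ≠ j → (α i).1 * (α j).2 ≠ (α j).1 * (α i).2) (S : Finset ℕ) :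
    Pool.Agent.W5h35.LW.Bnd α S := by
  obtain ⟨⟨⟨C, hC, h1⟩, h2⟩, -, -⟩ :=
    Pool.Agent.Results.MP_4d5ce1_nt.AlmostAllPoints.result q hq α hcop hα S
  exact ⟨fun X hX => (h1 X hX).1, ⟨C, hC, fun X hX => (h1 X hX).2⟩, h2, fun c hc0 hc1 =>
    Pool.Agent.W5h35.LW.tail_bound hq α hcop hα S (fun X hX => (h1 X hX).1) c hc0 hc1⟩

/-- **The asymptotic formula and the limit law.** Let `q ≥ 3`, let `α_1, …, α_q` be distinct points
of `ℙ¹(ℚ)` (coprime integer coordinates) and `S` a finite set of primes. There are `δ p j` and `D w`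
with the following properties.

(1) `δ p j` is the natural density of the pairs `x` of integers, not both divisible by `p`, for
which `p ^ j` is the exact power of `p` dividing `rep(x)`. At the good primes, `δ p 0` and `δ p j`
are given explicitly.
(2) `D w` is the natural density of the coprime pairs `x` with `rep(x) = w`; it is the product of
the `δ p (v_p(w))` over all primes.
(3) `∑_w D w w ^ (2 / q)` converges, is positive and is the product over all primes `p` of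
`σ_p = ∑_j δ p j p ^ (2 j / q)`; at the good primes
`σ_p = 1 - p⁻² + (q / p) (1 - p⁻¹) (p ^ (2 / q) - 1) / (p - p ^ (2 / q))`.
(4) The region `F ≤ 1` has finite positive area.
(5) Let `Γ` be a set of directions and `W` a set of natural numbers. The number of all points `x`
different from the `α_ℓ`, of whatever height, with `N1(x) ≤ log X`, direction in `Γ` and
`rep(x) ∈ W`, divided by `X ^ (2 / q)`, tends to `(1 / 2) area(Γ) ∑_{w ∈ W} D w w ^ (2 / q)`. So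
the number of all the points is asymptotic to `κ X ^ (2 / q)` with
`κ = (1 / 2) area(F ≤ 1) ∏_p σ_p`, and the direction and the repeated part are asymptotically
independent.
(6) For all real `t` the same holds with the additional condition `q h(x) ≤ N1(x) + t` and the limit
`(1 / 2) ∑_{w ∈ W} D w w ^ (2 / q) area(Γ, F ≤ 1, w max ^ q ≤ exp(t) F)`. For `Γ` and `W` everything
write `G(t)` for this limit.
(7) The tail of the limit law has the exponent `1 - 2 / q`: for `t ≥ 0` we have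
`c exp(-(1 - 2 / q) t) ≤ κ - G(t)` with some `c > 0`, and `κ - G(t) ≤ C exp(-θ t)` for every
`θ < 1 - 2 / q`, with some `C` depending on `θ`. -/
theorem result (q : ℕ) (hq : 3 ≤ q) (α : Fin q → ℤ × ℤ)
    (hcop : ∀ i, IsCoprime (α i).1 (α i).2)
    (hα : ∀ i j, i ≠ j → (α i).1 * (α j).2 ≠ (α j).1 * (α i).2) (S : Finset ℕ) :
    ∃ (δ : ℕ → ℕ → ℝ) (D : ℕ → ℝ),
      (∀ p : ℕ, p.Prime → ∀ j, HasDens {x | ¬((p : ℤ) ∣ x.1 ∧ (p : ℤ) ∣ x.2) ∧ (∀ i, L α i x ≠ 0) ∧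
        (rep α S x).factorization p = j} (δ p j)) ∧
      (∀ p : ℕ, Good α S p →
        δ p 0 = 1 - 1 / (p : ℝ) ^ 2 - q * (1 - 1 / p) / (p : ℝ) ^ 2 ∧
        ∀ j, 1 ≤ j → δ p j = q * (1 - 1 / p) ^ 2 / (p : ℝ) ^ (j + 1)) ∧
      (∀ w : ℕ, w ≠ 0 → HasDens {x | IsCoprime x.1 x.2 ∧ (∀ i, L α i x ≠ 0) ∧ rep α S x = w} (D w) ∧
        Tendsto (fun P : ℕ => ∏ p ∈ P.primesBelow, δ p (w.factorization p)) atTop (𝓝 (D w))) ∧
      (∀ p : ℕ, p.Prime → Summable fun j : ℕ => δ p j * (p : ℝ) ^ (2 * (j : ℝ) / (q : ℝ))) ∧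
      (∀ p : ℕ, Good α S p → ∑' j : ℕ, δ p j * (p : ℝ) ^ (2 * (j : ℝ) / (q : ℝ)) =
        1 - 1 / (p : ℝ) ^ 2 + q / p * (1 - 1 / p) *
          (((p : ℝ) ^ (2 / (q : ℝ)) - 1) / (p - (p : ℝ) ^ (2 / (q : ℝ))))) ∧
      (Summable fun w : ℕ => D w * (w : ℝ) ^ (2 / (q : ℝ))) ∧
      0 < ∑' w : ℕ, D w * (w : ℝ) ^ (2 / (q : ℝ)) ∧
      Tendsto (fun P : ℕ => ∏ p ∈ P.primesBelow,
          ∑' j : ℕ, δ p j * (p : ℝ) ^ (2 * (j : ℝ) / (q : ℝ))) atTop
        (𝓝 (∑' w : ℕ, D w * (w : ℝ) ^ (2 / (q : ℝ)))) ∧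
      volume {y | F α y ≤ 1} ≠ ⊤ ∧ 0 < area α Set.univ ∧
      (∀ Γ, Dirs Γ → ∀ W : Set ℕ,
        Tendsto (fun X : ℝ => ({x | x ∈ Pts α S X ∧ ((x.1 : ℝ), (x.2 : ℝ)) ∈ Γ ∧
            rep α S x ∈ W}.ncard : ℝ) / X ^ (2 / (q : ℝ))) atTop
          (𝓝 (1 / 2 * area α Γ *
            ∑' w : ℕ, W.indicator (fun w => D w * (w : ℝ) ^ (2 / (q : ℝ))) w)) ∧
        ∀ t : ℝ, Tendsto (fun X : ℝ => ({x | x ∈ Pts α S X ∧ ((x.1 : ℝ), (x.2 : ℝ)) ∈ Γ ∧
            rep α S x ∈ W ∧ (q : ℝ) * hgt x ≤ N1 α S x + t}.ncard : ℝ) / X ^ (2 / (q : ℝ))) atTop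
          (𝓝 (1 / 2 * ∑' w : ℕ,
            W.indicator (fun w => D w * (w : ℝ) ^ (2 / (q : ℝ)) * areaT α Γ w t) w))) ∧
      (∃ c : ℝ, 0 < c ∧ ∀ t : ℝ, 0 ≤ t → c * Real.exp (-((1 - 2 / (q : ℝ)) * t)) ≤
        1 / 2 * area α Set.univ * ∑' w : ℕ, D w * (w : ℝ) ^ (2 / (q : ℝ)) -
        1 / 2 * ∑' w : ℕ, D w * (w : ℝ) ^ (2 / (q : ℝ)) * areaT α Set.univ w t) ∧
      (∀ θ : ℝ, 0 ≤ θ → θ < 1 - 2 / q → ∃ C : ℝ, 0 < C ∧ ∀ t : ℝ, 0 ≤ t →
        1 / 2 * area α Set.univ * ∑' w : ℕ, D w * (w : ℝ) ^ (2 / (q : ℝ)) -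
        1 / 2 * ∑' w : ℕ, D w * (w : ℝ) ^ (2 / (q : ℝ)) * areaT α Set.univ w t ≤
          C * Real.exp (-(θ * t))) := by
  have hB := bnd q hq α hcop hα S
  have hq1 : 1 ≤ q := by omega
  have hsum := Pool.Agent.W5h35.LW.aw_summable hq α hcop hα S hB
  obtain ⟨w₀, hw₀⟩ := Pool.Agent.W5h35.LW.exists_pos hq α hcop hα S hB
  have hfin := Pool.Agent.W5h35.LW.Rf_fin hq α hcop hα S hB
  obtain ⟨heul1, heul2⟩ := Pool.Agent.W5h35.LW.euler hq1 hsum hw₀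
  have hset : {y : ℝ × ℝ | F α y ≤ 1} = Pool.Agent.W5h35.LW.Rf α Set.univ := by
    ext y
    exact ⟨fun h => ⟨Set.mem_univ _, h⟩, fun h => h.2⟩
  have harea : ∀ Γ, area α Γ = volume.real (Pool.Agent.W5h35.LW.Rf α Γ) := fun Γ => rfl
  have hareaT : ∀ Γ w t, areaT α Γ w t = volume.real (Pool.Agent.W5h35.LW.Rg α Γ w t) :=
    fun Γ w t => rfl
  refine ⟨Pool.Agent.W5h35.LW.lp α S, Pool.Agent.W5h35.LW.dw α S,
    fun p hp j => Pool.Agent.W5h35.LW.dens_loc α hcop S hp j,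
    fun p hp => ⟨Pool.Agent.W5h35.LW.lp_zero hcop hp.1 hp.2.1 hp.2.2,
      fun j hj => Pool.Agent.W5h35.LW.lp_pos hcop hp.1 hp.2.1 hp.2.2 hj⟩,
    fun w hw => ⟨Pool.Agent.W5h35.LW.dens_AW hq1 α hcop S hw,
      Pool.Agent.W5h35.LW.dP_tendsto α S w⟩, heul1,
    fun p hp => Pool.Agent.W5h35.LW.sigma_good hq hcop hp.1 hp.2.1 hp.2.2, hsum, ?_, heul2, ?_, ?_,
    ?_, ?_, ?_⟩
  · exact lt_of_lt_of_le hw₀ (hsum.le_tsum w₀ fun w _ => Pool.Agent.W5h35.LW.aw_nonneg α S w)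
  · rw [hset]
    exact hfin
  · rw [harea]
    exact ENNReal.toReal_pos (Pool.Agent.W5h35.LW.Rf_pos hq1 α).ne' hfin
  · rintro Γ ⟨h1, h2, h3⟩ W
    constructor
    · have h4 := Pool.Agent.W5h35.LW.lim_all hq α hcop hα S hB h3 h1 h2 W
      have e : 1 / 2 * area α Γ * ∑' w : ℕ, W.indicator
          (fun w => Pool.Agent.W5h35.LW.dw α S w * (w : ℝ) ^ (2 / (q : ℝ))) w =
          1 / 2 * ∑' w, W.indicator (fun w => Pool.Agent.W5h35.LW.aw α S w *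
            volume.real (Pool.Agent.W5h35.LW.Rf α Γ)) w := by
        rw [mul_assoc, ← tsum_mul_left, harea]
        congr 2
        funext w
        by_cases hw : w ∈ W
        · rw [Set.indicator_of_mem hw, Set.indicator_of_mem hw, mul_comm]
          rfl
        · rw [Set.indicator_of_notMem hw, Set.indicator_of_notMem hw, mul_zero]
      rw [e]
      exact h4
    · intro t
      have h4 := Pool.Agent.W5h35.LW.lim_tau' hq α hcop hα S h3 h1 h2 W t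
      refine h4.congr fun X => ?_
      congr 2
      refine congrArg Set.ncard ?_
      ext x
      constructor
      · rintro ⟨⟨g1, g2, g3⟩, g4⟩
        exact ⟨g1, g2, g3, g4⟩
      · rintro ⟨g1, g2, g3, g4⟩
        exact ⟨⟨g1, g2, g3⟩, g4⟩
  · obtain ⟨c, hc, h⟩ := Pool.Agent.W5h35.LW.tail_low hq α hcop hα S hB
    refine ⟨c, hc, fun t ht => (h t ht).trans (le_of_eq ?_)⟩
    rw [tsum_mul_right, harea]
    have e : ∑' w, Pool.Agent.W5h35.LW.gt α S Set.univ t w =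
        ∑' w : ℕ, Pool.Agent.W5h35.LW.dw α S w * (w : ℝ) ^ (2 / (q : ℝ)) *
          areaT α Set.univ w t := rfl
    rw [← e]
    have e2 : ∑' w, Pool.Agent.W5h35.LW.aw α S w =
        ∑' w : ℕ, Pool.Agent.W5h35.LW.dw α S w * (w : ℝ) ^ (2 / (q : ℝ)) := rfl
    rw [← e2]
    ring
  · intro θ hθ0 hθ1
    obtain ⟨C, hC, h⟩ := Pool.Agent.W5h35.LW.tail_up hq α hcop hα S hB hθ0 hθ1
    refine ⟨C, hC, fun t ht => le_trans (le_of_eq ?_) (h t ht)⟩
    rw [tsum_mul_right, harea]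
    have e : ∑' w, Pool.Agent.W5h35.LW.gt α S Set.univ t w =
        ∑' w : ℕ, Pool.Agent.W5h35.LW.dw α S w * (w : ℝ) ^ (2 / (q : ℝ)) *
          areaT α Set.univ w t := rfl
    rw [← e]
    have e2 : ∑' w, Pool.Agent.W5h35.LW.aw α S w =
        ∑' w : ℕ, Pool.Agent.W5h35.LW.dw α S w * (w : ℝ) ^ (2 / (q : ℝ)) := rfl
    rw [← e2]
    ring

end Pool.Agent.Results.MP_4d5ce1_nt.LimitLaw
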