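import Pool.Agent.W5h9.GC.Crit

/-!
# Vojta's inequality near the real numbers with restricted partial quotients

Let `𝒜` be a finite set of positive integers and let `E_𝒜` be the (fractal) set of the numbers
`[0; a_0, a_1, …]` with all partial quotients in `𝒜`. We assume that its Hausdorff dimension `δ` is
larger than `1 / 2`. We prove the inequality of the conjecture, with the coefficient `(1 - ε) q`, for
all finite subsets of small height of the projective line over `ℚ` at once and for all rational points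
`x` with `|z - x| ≤ H(x) ^ (ρ - 2)`, for all `z ∈ E_𝒜` outside a set of smaller Hausdorff dimension. In
particular it holds for almost all `z ∈ E_𝒜` for the Hausdorff measure of dimension `δ`. The discrete
form: it holds for almost all rational numbers with all partial quotients in `𝒜`.

The definitions (all in `Pool.Agent.W5h9.GC`):

* `K w = (q, p)`, where `[0; w] = p / q` is the finite continued fraction of the word `w` (in lowest
  terms); `pt w = (p, q)`, and `cv w` is the real number `p / q`.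
* `pre a n = [a 0, …, a (n - 1)]`; `val a` is the limit of `cv (pre a n)`.
* `EA 𝒜` is the set of the `val a` with all `a i ∈ 𝒜`, `δ 𝒜` is its Hausdorff dimension, and `W 𝒜` is
  the type of the words with letters in `𝒜`.
* `hgt x` is the logarithmic height of the point with the coprime coordinates `x`, and `N1 α T x` is
  the sum over the primes `p ∉ T` of the truncated local heights `λ⁽¹⁾_p(α, x)`.
* `Good ε κ x`: for all finite sets `T` of primes with `∑_{p ∈ T} log p ≤ κ h(x)`, all `q ≥ 0` and all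
  points `α_1, …, α_q` of the line with `h(α_i) ≤ κ h(x)`, the point `x` is different from all the `α_i`
  and `(1 - ε) q h(x) ≤ ∑_i N1 α_i T x`.
* `Near ρ z`: the rational points `x = [p : q]`, `p` and `q` coprime, `q > 0`, such that
  `|z - p / q| ≤ q ^ (ρ - 2)`.
* `Bad 𝒜 ε κ ρ`: the set of the `z ∈ E_𝒜` such that infinitely many `x ∈ Near ρ z` are not good.
* `Vojta ε z`: there is `ρ > 0` such that for all `q`, all points `α_1, …, α_q` of the line and all
  finite sets `T` of primes there is `C` such that `(1 - ε) q h(x) ≤ ∑_i N1 α_i T x + C` for all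
  `x ∈ Near ρ z` different from the `α_i`.
-/

set_option autoImplicit false

namespace Pool.Agent.Results.MP_4d5ce1_nt.RestrictedPartialQuotients

open Pool.Agent.W5h9.GC MeasureTheory

theorem result :
    -- Let `𝒜` be a finite set of positive integers such that `dim E_𝒜 > 1 / 2`.
    (∀ (𝒜 : Set ℕ) (A : ℕ), (∀ a ∈ 𝒜, 1 ≤ a ∧ a ≤ A) → 1 / 2 < δ 𝒜 →
      -- (1) the inequality for all finite subsets of small height and for all `x ∈ Near ρ z`,
      -- for all `z ∈ E_𝒜` outside a set of smaller dimension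
      (∀ ε κ ρ : ℝ, 0 < ε → ε ≤ 1 → 0 ≤ κ → 0 ≤ ρ → ρ < 2 →
        dimH (Bad 𝒜 ε κ ρ) ≤
          ENNReal.ofReal ((2 * δ 𝒜 * (1 + 2 * κ) - ε * (2 * δ 𝒜 - 1)) / (2 - ρ))) ∧
      -- (2) the inequality in the form of the conjecture
      (∀ ε : ℝ, 0 < ε → ε ≤ 1 →
        dimH {z | z ∈ EA 𝒜 ∧ ¬ Vojta ε z} ≤ ENNReal.ofReal (δ 𝒜 - ε * (δ 𝒜 - 1 / 2))) ∧
      Measure.hausdorffMeasure (δ 𝒜) {z | z ∈ EA 𝒜 ∧ ∃ ε > 0, ¬ Vojta ε z} = 0 ∧
      -- (3) the inequality for almost all rational numbers with all partial quotients in `𝒜`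
      (∀ ε κ τ : ℝ, 0 < ε → ε ≤ 1 → 0 ≤ κ → 2 * δ 𝒜 * (1 + 2 * κ) - ε * (2 * δ 𝒜 - 1) < τ →
        Summable fun w : {w : W 𝒜 // ¬ Good ε κ (pt w.1)} => ((K w.1.1).1 : ℝ) ^ (-τ)) ∧
      (∀ τ : ℝ, 0 ≤ τ → τ < 2 * δ 𝒜 → ¬ Summable fun w : W 𝒜 => ((K w.1).1 : ℝ) ^ (-τ))) ∧
    -- (4) a sufficient condition for `dim E_𝒜 > 1 / 2`, and the example `𝒜 = {1, 2, 3}`
    (∀ (𝒜 : Set ℕ) (A : ℕ), (∀ a ∈ 𝒜, 1 ≤ a ∧ a ≤ A) → ∀ F : Finset ℕ, (∀ a ∈ F, a ∈ 𝒜) →
      1 < ∑ a ∈ F, 1 / ((a : ℝ) + 1) → 1 / 2 < δ 𝒜) ∧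
    1 / 2 < δ {1, 2, 3} := by
  refine ⟨fun 𝒜 A hA hδ => ⟨fun ε κ ρ h1 h2 h3 h4 h5 => dim_Bad hA hδ h1 h2 h3 h4 h5,
    fun ε h1 h2 => dim_Vojta hA hδ h1 h2, null_Vojta hA hδ, ?_, ?_⟩, ?_, ?_⟩
  · intro ε κ τ h1 h2 h3 h4
    have h5 := ENNReal.summable_toReal (count_words hA hδ h1 h2 h3 h4).ne
    refine h5.congr fun w => ?_
    unfold qs
    exact ENNReal.toReal_ofReal (by positivity)
  · intro τ h1 h2 hs
    have h3 : Z 𝒜 τ < ⊤ := hs.tsum_ofReal_lt_top
    exact h3.ne (Z_eq_top hA h1 h2)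
  · intro 𝒜 A hA F hF h
    exact half_lt hA hF h
  · refine half_lt (A := 3) (F := {1, 2, 3}) ?_ ?_ ?_
    · intro a ha
      simp only [Set.mem_insert_iff, Set.mem_singleton_iff] at ha
      omega
    · intro a ha
      simpa using ha
    · norm_num

end Pool.Agent.Results.MP_4d5ce1_nt.RestrictedPartialQuotients
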