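import Pool.Agent.W5h37.Thin.Holds
import Pool.Agent.W5h37.Thin.Digits
import Pool.Agent.W5h37.Thin.Smooth2
import Pool.Agent.W5h37.Thin.Squares

set_option autoImplicit false

/-!
# Vojta's inequality for almost all points with coordinates in thin sets

The conjecture concerns the truncated counting function of a finite subset of the projective line.
We prove the inequality, for all finite subsets of small height at once, for almost all points
`[a : b]` such that `a` runs through a thin set `A` of integers up to `X`. The condition on `A` is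
that no arithmetic progression with `N` terms contains more than `X ^ η |A| (N / X) ^ θ` elements of
`A`, for some exponent `θ > 1 / 2`; here `b ≤ X` is arbitrary. For `θ = 1 / 2` this is false. Integers
with restricted digits and smooth numbers are examples.

The definitions (all in `Pool.Agent.W5h37.Thin`):

* `Spread X θ K A`: `A` is a nonempty set of integers from `1` to `X`, and every arithmetic
  progression with `N ≥ 1` terms contains at most `K |A| (N / X) ^ θ` elements of `A`.
* `pt a b`: the coprime coordinates of the point `[a : b]` of the projective line.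
* `hgt x`: the logarithmic height of the point with the coprime coordinates `x`.
* `N1 α T x`: the sum over the primes `p ∉ T` and over `l` of the truncated local heights
  `λ⁽¹⁾_p(α_l, x)`.
* `Holds ε η X c x`: for all `q`, all pairwise distinct points `α_1, …, α_q` of the projective line
  over `ℚ` of height at most `η log X` and all finite sets `T` with `∑_{p ∈ T} log p ≤ η log X`, the
  point `x` is different from all the `α_l`, and `(q - c) (1 - ε) h(x) ≤ N1 α T x`.
* `Restricted g D n`: the positive integers below `g ^ n` whose digit number `i` in base `g` is in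
  `D i`, for all `i < n` (leading zeros count as digits).
* `Squares X`: the positive squares up to `X`.
-/

namespace Pool.Agent.Results.MP_4d5ce1_nt.ThinSets

open Filter Pool.Agent.W5h37.Thin

open Classical in
theorem result :
    -- (1) The inequality. If `A` is spread out with an exponent `θ > 1 / 2`, then, for every `b ≤ X`,
    -- it holds with the coefficient `(q - 1) (1 - ε)` for almost all `a ∈ A`; if `B` has the same
    -- property, it holds with the coefficient `q (1 - ε)` for almost all `(a, b) ∈ A × B`.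
    (∀ θ ε : ℝ, 1 / 2 < θ → θ ≤ 1 → 0 < ε → ε < 1 →
      ∃ δ η : ℝ, 0 < δ ∧ 0 < η ∧ ∀ᶠ X : ℕ in atTop, ∀ A : Finset ℕ, Spread X θ ((X : ℝ) ^ η) A →
        (∀ b : ℕ, 1 ≤ b → b ≤ X →
          ((A.filter fun a => ¬ Holds ε η X 1 (pt a b)).card : ℝ) ≤ (X : ℝ) ^ (-δ) * A.card) ∧
        ∀ B : Finset ℕ, Spread X θ ((X : ℝ) ^ η) B →
          (((A ×ˢ B).filter fun w => ¬ Holds ε η X 0 (pt w.1 w.2)).card : ℝ) ≤
            (X : ℝ) ^ (-δ) * (A.card * B.card)) ∧
    -- (2) Integers with restricted digits, at least `g ^ θ` digits being allowed at each place.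
    (∀ (g : ℕ) (D : ℕ → Finset ℕ) (θ η : ℝ), 2 ≤ g → (∀ i, D i ⊆ Finset.range g) → 0 < θ → θ ≤ 1 →
      (∀ i, (g : ℝ) ^ θ ≤ (D i).card) → 0 < η →
      ∀ᶠ n : ℕ in atTop, Spread (g ^ n) θ (((g ^ n : ℕ) : ℝ) ^ η) (Restricted g D n)) ∧
    -- (3) Smooth numbers: all prime factors less than `k`, where `k ≥ (log X) ^ κ` and `κ > 2`.
    (∀ κ η : ℝ, 2 < κ → 0 < η → ∀ᶠ X : ℕ in atTop, ∀ k : ℕ, (Real.log X) ^ κ ≤ k →
      Spread X (1 - 1 / κ) ((X : ℝ) ^ η) (Nat.smoothNumbersUpTo X k)) ∧
    -- (4) The exponent `1 / 2` is not enough, already for `b = 1`: the squares.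
    (∀ η : ℝ, 0 < η → ∀ᶠ X : ℕ in atTop, Spread X (1 / 2) ((X : ℝ) ^ η) (Squares X)) ∧
    (∀ ε η : ℝ, ε < 1 / 2 → 0 < η → ∀ X a : ℕ, a ∈ Squares X → a ≠ 1 →
      ¬ Holds ε η X 1 (pt a 1)) := by
  refine ⟨fun θ ε h1 h2 h3 h4 => main θ ε h1 h2 h3 h4, ?_, ?_, spread_squares, ?_⟩
  · intro g D θ η hg hD hθ0 hθ1 hD2 hη
    have hg1 : (1 : ℝ) < g := by exact_mod_cast (by omega : 1 < g)
    have htop : Tendsto (fun n : ℕ => g ^ n) atTop atTop :=
      tendsto_pow_atTop_atTop_of_one_lt (by omega)
    filter_upwards [htop.eventually (ev_const (4 * (g : ℝ) ^ 2) η hη), eventually_ge_atTop 1] with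
      n hn hn1
    have h := spread_digits hg hD hθ0 hθ1 hD2 hn1
    refine ⟨h.1, h.2.1, fun c d N hd hN => (h.2.2 c d N hd hN).trans ?_⟩
    have h0 := h.card_pos
    gcongr
  · intro κ η hκ hη
    exact spread_smooth hκ hη
  · intro ε η hε hη X a ha ha1
    exact squares_fail hε hη ha ha1

end Pool.Agent.Results.MP_4d5ce1_nt.ThinSets
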